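import Pool.Agent.H.MP_680d10.A

set_option autoImplicit false

open Set Filter Topology unitInterval

namespace Pool.Agent.Results.MP_680d10_gt.Yes

universe u

/-- absolutely continuous map on the unit interval -/
def AC {Z : Type u} [MetricSpace Z] (h : I → Z) : Prop :=
  ∀ ε > (0 : ℝ), ∃ δ > (0 : ℝ), ∀ (n : ℕ) (a b : ℕ → I), (∀ k < n, a k < b k) →
    (∀ k, k + 1 < n → b k ≤ a (k + 1)) → ∑ k ∈ Finset.range n, (b k - a k : ℝ) < δ →
      ∑ k ∈ Finset.range n, dist (h (b k)) (h (a k)) < ε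

theorem result (Z : Type u) [MetricSpace Z] (f : I → I → Z) (h1 : ∀ y, AC fun x => f x y)
    (h2 : ∀ x, AC fun y => f x y) : ∃ g : ℕ → I → Z, (∀ n, Continuous (g n)) ∧
      ∀ x, Tendsto (fun n => g n x) atTop (𝓝 (f x x)) ∧
        Summable fun n => dist (g (n + 1) x) (g n x) := by
  have c : ∀ {h : I → Z}, AC h → Continuous h := fun {h} e => Metric.continuous_iff.2 fun x ε p => by
    obtain ⟨δ, d1, d2⟩ := e ε p
    refine ⟨δ, d1, fun y hy => ?_⟩
    replace hy := abs_sub_lt_iff.1 hy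
    rcases lt_trichotomy x y with a | rfl | a
    · simpa using d2 1 (fun _ => x) (fun _ => y) (fun _ _ => a) (by simp) (by simpa using hy.1)
    · simpa
    · simpa [dist_comm] using d2 1 (fun _ => y) (fun _ => x) (fun _ _ => a) (by simp)
        (by simpa using hy.2)
  refine Pool.Agent.H.MP_680d10.main (fun y => c (h1 y)) (fun x => c (h2 x)) fun y => ?_
  obtain ⟨δ, d1, d2⟩ := h1 y 1 one_pos
  exact ⟨δ, d1, fun n a m e => d2 n a (fun k => a (k + 1)) (fun k _ => m k.lt_succ_self)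
    (fun _ _ => le_rfl) (by rwa [Finset.sum_range_sub fun k => (a k : ℝ)])⟩

end Pool.Agent.Results.MP_680d10_gt.Yes
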